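import Pool.Agent.H183.SX.Final

/-!
# Star-shaped polygons are not successively determined by `m` X-rays, for any `m`

Q1 of MP_7519fe_gt.
-/

open scoped ENNReal

namespace Pool.Agent.Results.MP_7519fe_gt.NoSuccessiveDetermination

open Pool.H183.SX

/-- The X-rays of `K` seen in the first `n` steps when the rule `ρ` chooses each direction from the
X-rays obtained so far. -/
noncomputable def data (ρ : List (E2 → ℝ≥0∞) → E2) (K : Set E2) : ℕ → List (E2 → ℝ≥0∞)
  | 0 => []
  | n + 1 => data ρ K n ++ [xray (ρ (data ρ K n)) K]

/-- Star-shaped polygons are successively determined by `m` X-rays: there is a rule `ρ` that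
chooses the next direction from the X-rays obtained so far (the first one from no information),
such that any two star-shaped polygons `P`, `P'` with the same X-rays in the `m` directions
computed from `P` are equal. -/
def SuccessivelyDetermined (m : ℕ) : Prop :=
  ∃ ρ : List (E2 → ℝ≥0∞) → E2, (∀ l, ‖ρ l‖ = 1) ∧
    ∀ P P' : Set E2, IsPolygon P → IsStarShaped P → IsPolygon P' → IsStarShaped P' →
      (∀ j < m, xray (ρ (data ρ P j)) P' = xray (ρ (data ρ P j)) P) → P' = P

/-- No adaptive choice of `m` directions distinguishes all star-shaped polygons. -/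
theorem result : ∀ m : ℕ, ¬ SuccessivelyDetermined m := by
  rintro m ⟨ρ, hρ, h⟩
  obtain ⟨P, hP, hPs, hS⟩ := main m
  classical
  obtain ⟨P', hP', hPs', hne, hx⟩ :=
    hS ((Finset.range m).image (fun j => ρ (data ρ P j))) (by
      intro u hu
      rw [Finset.mem_image] at hu
      obtain ⟨j, _, rfl⟩ := hu
      exact hρ _) (by
      refine Finset.card_image_le.trans ?_
      simp)
  exact hne (h P P' hP hPs hP' hPs' (fun j hj =>
    hx _ (Finset.mem_image.2 ⟨j, Finset.mem_range.2 hj, rfl⟩)))

end Pool.Agent.Results.MP_7519fe_gt.NoSuccessiveDetermination
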