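import Pool.Agent.H183.SX.Final

/-!
# Star-shaped polygons that no `m` X-rays verify

Q2 of MP_7519fe_gt: for each `m` there is a star-shaped polygon `P` such that for every set `S` of
(at most) `m` directions there is a star-shaped polygon `P' ≠ P` with the same X-rays in all
directions of `S`.
-/

namespace Pool.Agent.Results.MP_7519fe_gt.NotVerifiable

open Pool.H183.SX

/-- For every `m` there is a star-shaped polygon `P` in the Euclidean plane such that for every set
`S` of at most `m` unit vectors there is a star-shaped polygon `P' ≠ P` whose X-ray in every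
direction of `S` is that of `P`. -/
theorem result (m : ℕ) : ∃ P : Set (EuclideanSpace ℝ (Fin 2)), IsPolygon P ∧ IsStarShaped P ∧
    ∀ S : Finset (EuclideanSpace ℝ (Fin 2)), (∀ u ∈ S, ‖u‖ = 1) → S.card ≤ m →
      ∃ P' : Set (EuclideanSpace ℝ (Fin 2)), IsPolygon P' ∧ IsStarShaped P' ∧ P' ≠ P ∧
        ∀ u ∈ S, xray u P' = xray u P :=
  main m

end Pool.Agent.Results.MP_7519fe_gt.NotVerifiable
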